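import Pool.Agent.H57.BD.Stmts

set_option autoImplicit false

namespace Pool.BD

theorem comp : COMPStmt := by
  classical
  intro F _ hne hst
  set E : Finset ℕ := F.biUnion id with hE
  set P : Finset (Finset ℕ) := ((E ×ˢ E).filter
    (fun p => p.1 < p.2 ∧ ∀ e ∈ E, ¬ (p.1 < e ∧ e < p.2))).image (fun p => ({p.1, p.2} : Finset ℕ))
    with hP
  have hPm : ∀ S, S ∈ P ↔ ∃ c c', c ∈ E ∧ c' ∈ E ∧ c < c' ∧ (∀ e ∈ E, ¬ (c < e ∧ e < c')) ∧
      ({c, c'} : Finset ℕ) = S := by
    intro S
    rw [hP, Finset.mem_image]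
    constructor
    · rintro ⟨p, hp, rfl⟩
      rw [Finset.mem_filter, Finset.mem_product] at hp
      exact ⟨p.1, p.2, hp.1.1, hp.1.2, hp.2.1, hp.2.2, rfl⟩
    · rintro ⟨c, c', h1, h2, h3, h4, h5⟩
      refine ⟨(c, c'), ?_, h5⟩
      rw [Finset.mem_filter, Finset.mem_product]
      exact ⟨⟨h1, h2⟩, h3, h4⟩
  have hFE : ∀ S ∈ F, ∀ c ∈ S, c ∈ E := fun S hS c hc =>
    Finset.mem_biUnion.2 ⟨S, hS, hc⟩
  have hPE : ∀ S ∈ P, ∀ c ∈ S, c ∈ E := by
    intro S hS c hc
    obtain ⟨a, b, ha, hb, _, _, rfl⟩ := (hPm S).1 hS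
    rw [Finset.mem_insert, Finset.mem_singleton] at hc
    rcases hc with rfl | rfl
    · exact ha
    · exact hb
  have hU : (F ∪ P).biUnion id = E := by
    apply Finset.Subset.antisymm
    · intro c hc
      obtain ⟨S, hS, hcS⟩ := Finset.mem_biUnion.1 hc
      rcases Finset.mem_union.1 hS with h | h
      · exact hFE S h c hcS
      · exact hPE S h c hcS
    · intro c hc
      obtain ⟨S, hS, hcS⟩ := Finset.mem_biUnion.1 hc
      exact Finset.mem_biUnion.2 ⟨S, Finset.mem_union_left _ hS, hcS⟩
  have hall : ∀ S ∈ F ∪ P, ∀ c ∈ S, c ∈ E := by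
    intro S hS c hcS
    rcases Finset.mem_union.1 hS with h | h
    · exact hFE S h c hcS
    · exact hPE S h c hcS
  refine ⟨F ∪ P, Finset.subset_union_left, ?_, ?_, hU, ?_⟩
  · intro S hS
    rcases Finset.mem_union.1 hS with h | h
    · exact hne S h
    · obtain ⟨a, b, _, _, _, _, rfl⟩ := (hPm S).1 h
      exact ⟨a, Finset.mem_insert_self _ _⟩
  · intro S hS S' hS' x hx hx' y hy hy' hxy
    rcases Finset.mem_union.1 hS' with h' | h'
    · rcases Finset.mem_union.1 hS with h | h
      · exact hst S h S' h' x hx hx' y hy hy' hxy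
      · left
        obtain ⟨a, b, ha, hb, hab, hcon, rfl⟩ := (hPm S).1 h
        intro u hu hxu
        rw [Finset.mem_insert, Finset.mem_singleton] at hx hy
        have hx1 : x = a := by
          rcases hx with hx | hx
          · exact hx
          · rcases hy with hy | hy <;> omega
        have hy1 : y = b := by
          rcases hy with hy | hy
          · omega
          · exact hy
        exact hcon u (hFE S' h' u hu) ⟨by omega, by omega⟩
    · obtain ⟨a, b, ha, hb, hab, hcon, rfl⟩ := (hPm S').1 h'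
      have hxE := hall S hS x hx
      have hyE := hall S hS y hy
      rw [Finset.mem_insert, Finset.mem_singleton] at hx' hy'
      have c1 := hcon x hxE
      have c2 := hcon y hyE
      by_cases hin : x < a ∧ b < y
      · right
        intro v hv
        rw [Finset.mem_insert, Finset.mem_singleton] at hv
        omega
      · left
        intro u hu
        rw [Finset.mem_insert, Finset.mem_singleton] at hu
        omega
  · intro c hc c' hc' hcc hcon
    rw [hU] at hc hc' hcon
    exact Finset.mem_union_right _ ((hPm _).2 ⟨c, c', hc, hc', hcc, hcon, rfl⟩)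

end Pool.BD
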