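import Pool.Agent.H57.BD.Stmts

set_option autoImplicit false

namespace Pool.BD

namespace LEV

/-- `R F τ k c`: `c` is reached from `τ` in at most `k` steps. -/
def R (F : Finset (Finset ℕ)) (τ : ℕ) : ℕ → ℕ → Prop
  | 0, c => c = τ
  | k + 1, c => R F τ k c ∨ ∃ S ∈ F, c ∈ S ∧ ∃ c' ∈ S, R F τ k c'

end LEV

theorem lev : LEVStmt := by
  classical
  intro F hne hcon
  rcases (F.biUnion id).eq_empty_or_nonempty with hE | hE
  · have hno : ∀ S ∈ F, False := by
      intro S hS
      obtain ⟨c, hc⟩ := hne S hS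
      have : c ∈ F.biUnion id := Finset.mem_biUnion.2 ⟨S, hS, hc⟩
      rw [hE] at this
      exact absurd this (Finset.notMem_empty _)
    exact ⟨fun _ => 0, ⟨fun S hS => (hno S hS).elim, fun S hS => (hno S hS).elim,
      fun S hS => (hno S hS).elim⟩⟩
  · set E : Finset ℕ := F.biUnion id with hEd
    have hFE : ∀ S ∈ F, ∀ c ∈ S, c ∈ E := fun S hS c hc => Finset.mem_biUnion.2 ⟨S, hS, hc⟩
    set τ := E.min' hE with hτ
    have hτE : τ ∈ E := Finset.min'_mem _ _
    have hτm : ∀ e ∈ E, τ ≤ e := fun e he => Finset.min'_le _ _ he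
    have hex : ∀ c, c ∈ E → ∃ k, LEV.R F τ k c := by
      intro c
      induction c using Nat.strong_induction_on with
      | _ c ih =>
        intro hc
        by_cases h : c = τ
        · exact ⟨0, h⟩
        · have hlt : τ < c := lt_of_le_of_ne (hτm c hc) (Ne.symm h)
          have hn : (E.filter (fun e => e < c)).Nonempty := ⟨τ, Finset.mem_filter.2 ⟨hτE, hlt⟩⟩
          have hm := Finset.mem_filter.1 (Finset.max'_mem _ hn)
          set c₀ := (E.filter (fun e => e < c)).max' hn with hc₀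
          have hpair : ({c₀, c} : Finset ℕ) ∈ F := by
            apply hcon c₀ hm.1 c hc hm.2
            rintro e he ⟨h1, h2⟩
            have := Finset.le_max' (E.filter (fun e => e < c)) e (Finset.mem_filter.2 ⟨he, h2⟩)
            omega
          obtain ⟨k, hk⟩ := ih c₀ hm.2 hm.1
          exact ⟨k + 1, Or.inr ⟨_, hpair, by simp, c₀, by simp, hk⟩⟩
    have hone : ∀ S ∈ F, ∀ c ∈ S, ∀ c' ∈ S,
        sInf {k | LEV.R F τ k c'} ≤ sInf {k | LEV.R F τ k c} + 1 := by
      intro S hS c hc c' hc'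
      have h1 : LEV.R F τ (sInf {k | LEV.R F τ k c}) c := Nat.sInf_mem (hex c (hFE S hS c hc))
      exact Nat.sInf_le (show LEV.R F τ (sInf {k | LEV.R F τ k c} + 1) c' from
        Or.inr ⟨S, hS, hc', c, hc, h1⟩)
    refine ⟨fun c => sInf {k | LEV.R F τ k c}, ⟨hone, ?_, ?_⟩⟩
    · intro S₀ hS₀ c hc hne0
      have hne0' : sInf {k | LEV.R F τ k c} ≠ 0 := hne0
      show ∃ S ∈ F, c ∈ S ∧ ∃ c' ∈ S, sInf {k | LEV.R F τ k c'} + 1 = sInf {k | LEV.R F τ k c}
      have h1 : LEV.R F τ (sInf {k | LEV.R F τ k c}) c := Nat.sInf_mem (hex c (hFE S₀ hS₀ c hc))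
      obtain ⟨k, hk⟩ := Nat.exists_eq_succ_of_ne_zero hne0'
      rw [hk] at h1
      rcases h1 with h1 | ⟨S, hS, hcS, c', hc', hR⟩
      · have := Nat.sInf_le (show k ∈ {k | LEV.R F τ k c} from h1)
        omega
      · have h2 : sInf {k | LEV.R F τ k c'} ≤ k :=
          Nat.sInf_le (show k ∈ {k | LEV.R F τ k c'} from hR)
        have h3 := hone S hS c' hc' c hcS
        exact ⟨S, hS, hcS, c', hc', by omega⟩
    · intro S₀ hS₀ c hc h0 S hS e he
      have h0' : sInf {k | LEV.R F τ k c} = 0 := h0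
      have h1 : LEV.R F τ (sInf {k | LEV.R F τ k c}) c := Nat.sInf_mem (hex c (hFE S₀ hS₀ c hc))
      rw [h0'] at h1
      have h2 : c = τ := h1
      rw [h2]
      exact hτm e (hFE S hS e he)

end Pool.BD
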