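import Pool.Agent.H57.BD.Stmts

set_option autoImplicit false

namespace Pool.BD

namespace PM

theorem dep_le {lev : ℕ → ℕ} {S : Finset ℕ} : ∀ c ∈ S, dep lev S ≤ lev c := by
  intro c hc
  exact Nat.sInf_le (show lev c ∈ {n | ∃ c ∈ S, lev c = n} from ⟨c, hc, rfl⟩)

theorem mem_upF {F : Finset (Finset ℕ)} {lev : ℕ → ℕ} {S : Finset ℕ} (hS : S ∈ F)
    (h : (upP lev S).Nonempty) : upP lev S ∈ upF F lev (dep lev S) := by
  classical
  unfold upF
  rw [Finset.mem_filter, Finset.mem_image]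
  exact ⟨⟨S, Finset.mem_filter.2 ⟨hS, rfl⟩, rfl⟩, h⟩

end PM

open Classical in
theorem pm (hSTWO : STWOStmt) (hUPF : UPFStmt) (hTYPA : TYPAStmt) : PMStmt := by
  intro F lev r N hB vL x hv
  have hU := (hUPF F lev hB.ne hB.star hB.lev).2
  have hup : ∀ S ∈ F, ∀ c, c ∈ upP lev S ↔ c ∈ S ∧ lev c = dep lev S + 1 := by
    intro S _ c
    unfold upP
    rw [Finset.mem_filter]
  set lo : {S // S ∈ F} → ℕ := fun a =>
    if (upP lev a.1).Nonempty then vL (dep lev a.1) (upP lev a.1) else 1 with hlo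
  set hi : {S // S ∈ F} → ℕ := fun a =>
    if (upP lev a.1).Nonempty then x (dep lev a.1) (upP lev a.1) else 0 with hhi
  have hlo1 : ∀ a : {S // S ∈ F}, (upP lev a.1).Nonempty →
      lo a = vL (dep lev a.1) (upP lev a.1) := fun a ha => if_pos ha
  have hhi1 : ∀ a : {S // S ∈ F}, (upP lev a.1).Nonempty →
      hi a = x (dep lev a.1) (upP lev a.1) := fun a ha => if_pos ha
  have hlo0 : ∀ a : {S // S ∈ F}, ¬ (upP lev a.1).Nonempty → lo a = 1 := fun a ha => if_neg ha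
  have hhi0 : ∀ a : {S // S ∈ F}, ¬ (upP lev a.1).Nonempty → hi a = 0 := fun a ha => if_neg ha
  have hFE : ∀ S ∈ F, ∀ c ∈ S, c ∈ F.biUnion id := fun S hS c hc =>
    Finset.mem_biUnion.2 ⟨S, hS, hc⟩
  -- the ends
  have hends : ∀ a : {S // S ∈ F}, (upP lev a.1).Nonempty →
      lo a ∈ upP lev a.1 ∧ hi a ∈ upP lev a.1 := by
    intro a ha
    have h := hv (dep lev a.1) _ (PM.mem_upF a.2 ha)
    rw [hlo1 a ha, hhi1 a ha]
    exact ⟨h.1, h.2.1⟩
  have hmemT : ∀ a : {S // S ∈ F}, ∀ c ∈ (upP lev a.1).filter (fun c =>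
      vL (dep lev a.1) (upP lev a.1) ≤ c ∧ c ≤ x (dep lev a.1) (upP lev a.1)),
      c ∈ F.biUnion id ∧ lev c = dep lev a.1 + 1 ∧ lo a ≤ c ∧ c ≤ hi a := by
    intro a c hc
    rw [Finset.mem_filter] at hc
    have hn : (upP lev a.1).Nonempty := ⟨c, hc.1⟩
    have h1 := (hup a.1 a.2 c).1 hc.1
    rw [hlo1 a hn, hhi1 a hn]
    exact ⟨hFE a.1 a.2 c h1.1, h1.2, hc.2.1, hc.2.2⟩
  refine ⟨lo, hi, fun a c hc => (hmemT a c hc).2.2, ?_⟩
  refine hTYPA {S // S ∈ F} N (F.biUnion id) lev r _ lo hi (fun a => dep lev a.1 + 1) hB.le hB.nc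
    ⟨hmemT, ?_, ?_⟩ ?_
  · intro a e he hle h1 h2
    by_cases hn : (upP lev a.1).Nonempty
    · obtain ⟨e1, e2⟩ := hends a hn
      have e1' := (hup a.1 a.2 _).1 e1
      have e2' := (hup a.1 a.2 _).1 e2
      obtain ⟨S₀, hS₀, he0⟩ := Finset.mem_biUnion.1 he
      have hle' : lev e < dep lev a.1 + 1 := hle
      have hne1 : lo a ≠ e := by
        intro h
        rw [h] at e1'
        omega
      have hne2 : e ≠ hi a := by
        intro h
        rw [← h] at e2'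
        omega
      exact hSTWO F lev hB.star hB.lev (dep lev a.1) a.1 a.2 PM.dep_le (lo a) e1'.1 (hi a) e2'.1
        e1'.2 e2'.2 S₀ hS₀ e he0 (by omega) ⟨by omega, by omega⟩
    · rw [hlo0 a hn] at h1
      rw [hhi0 a hn] at h2
      omega
  · intro a b b' hbb hb'N hnot
    by_cases hn : (upP lev a.1).Nonempty
    · obtain ⟨e1, e2⟩ := hends a hn
      have e1' := (hup a.1 a.2 _).1 e1
      have e2' := (hup a.1 a.2 _).1 e2
      by_cases hb : lo a ≤ b ∧ b ≤ hi a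
      · refine ⟨hi a, hFE a.1 a.2 _ e2'.1, e2'.2.le, hb.2, ?_⟩
        by_contra hc
        exact hnot ⟨fun _ => ⟨by omega, by omega⟩, fun _ => hb⟩
      · by_cases hb' : lo a ≤ b' ∧ b' ≤ hi a
        · refine ⟨lo a, hFE a.1 a.2 _ e1'.1, e1'.2.le, ?_, hb'.1⟩
          omega
        · exact absurd ⟨fun h => (hb h).elim, fun h => (hb' h).elim⟩ hnot
    · exfalso
      apply hnot
      rw [hlo0 a hn, hhi0 a hn]
      constructor
      · intro h
        omega
      · intro h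
        omega
  · intro a c hcE hlc h1 h2
    by_cases hn : (upP lev a.1).Nonempty
    · have h := hv (dep lev a.1) _ (PM.mem_upF a.2 hn)
      rw [hlo1 a hn] at h1
      rw [hhi1 a hn] at h2
      rw [Finset.mem_filter]
      refine ⟨h.2.2.2.1 c ?_ h1 h2, h1, h2⟩
      rw [(hU (dep lev a.1)).2.2, Finset.mem_filter]
      exact ⟨hcE, hlc⟩
    · rw [hlo0 a hn] at h1
      rw [hhi0 a hn] at h2
      omega

end Pool.BD
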