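import Pool.Agent.H57.BD.StmtsZ

set_option autoImplicit false

namespace Pool.BD

open Relation

namespace Z1

theorem fr_bot (P : Type) : Pool.WG.Fr (⊥ : SimpleGraph P) := by
  constructor
  · rintro ⟨f, _, _, h⟩
    obtain ⟨x, _, y, _, hxy⟩ := h 0 1 (by simp)
    exact hxy
  · rintro ⟨f, _, _, h⟩
    obtain ⟨x, _, y, _, hxy⟩ := h (Sum.inl 0) (Sum.inr 0) (by simp)
    exact hxy

/-- the instance of one odd layer -/
theorem one {Pl : ∀ V : Type, SimpleGraph V → Prop} (hF : ZFStmt) (hR : ZRStmt)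
    (hPl : ∀ (V : Type) [Finite V] (G : SimpleGraph V), Pool.WG.Fr G → Pl V G)
    (P : Type) [Finite P] [PartialOrder P] (hfr : Pool.WG.Fr (cov P)) (comp : P → P) (ly : P → ℕ)
    (hL : Lay P comp ly) (r : P) (k : ℕ) :
    ∃ (G : SimpleGraph (Option P)) (rk : Option P → ℕ), Pl (Option P) G ∧ Function.Injective rk ∧
      (∀ v, v ≠ none → rk none < rk v) ∧
      (1 ≤ k → comp r = r →
        (∀ y, comp y = r → ly y = 2 * k - 1 → Re G rk none (some y)) ∧
        ∀ x y, comp x = r → (ly x = 2 * k - 1 ∨ ly x = 2 * k) → comp y = r → ly y = 2 * k - 1 →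
          (Re G rk (some x) (some y) ↔ x ≤ y)) := by
  by_cases hk : 1 ≤ k ∧ comp r = r
  · obtain ⟨hk1, hr⟩ := hk
    have hD : ∀ x ∈ {z : P | comp z = r ∧ ly z < 2 * k - 1},
        x ∉ {z : P | comp z = r ∧ ly z = 2 * k - 1} ∧ x ∉ {z : P | comp z = r ∧ ly z = 2 * k} := by
      rintro x ⟨_, hx⟩
      constructor
      · rintro ⟨_, hx'⟩
        omega
      · rintro ⟨_, hx'⟩
        omega
    obtain ⟨rk, h1, h2, h3, h4⟩ := hR P {z : P | comp z = r ∧ ly z < 2 * k - 1}
      {z : P | comp z = r ∧ ly z = 2 * k - 1} {z : P | comp z = r ∧ ly z = 2 * k} hD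
      (by
        rintro z ⟨hz, hlz⟩
        obtain ⟨d, hd1, hd2, hd3⟩ := hL.up z (by omega)
        refine ⟨d, ⟨by rw [hL.comp_le d z hd2, hz], by omega⟩, hd2, ?_⟩
        intro c hc1 hc2
        have h5 := hd3 c hc1 hc2
        have h6 : comp c = r := by rw [hL.comp_le c z hc2, hz]
        rcases Nat.lt_or_ge (ly c) (2 * k - 1) with h7 | h7
        · exact Or.inl ⟨h6, h7⟩
        · exact Or.inr ⟨h6, by omega⟩)
      (by
        rintro x hx y ⟨hy, hly⟩ c hxc hcy
        have hc : comp c = r := by rw [hL.comp_le c y hcy, hy]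
        have hlx : ly x = 2 * k - 1 ∨ ly x = 2 * k := by
          rcases hx with hx | hx
          · exact Or.inl hx.2
          · exact Or.inr hx.2
        have key : ly c = 2 * k - 1 ∨ ly c = 2 * k := by
          rcases eq_or_lt_of_le hcy with h5 | h5
          · rw [h5]
            exact Or.inl hly
          · rcases eq_or_lt_of_le hxc with h6 | h6
            · rw [← h6]
              exact hlx
            · have h7 := hL.ly_lt c y h5
              have h8 := hL.ly_lt x c h6
              omega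
        rcases key with h | h
        · exact Or.inl ⟨hc, h⟩
        · exact Or.inr ⟨hc, h⟩)
    refine ⟨cgr (cov P) {z : P | comp z = r ∧ ly z < 2 * k - 1}
      {z : P | comp z = r ∧ ly z = 2 * k - 1} {z : P | comp z = r ∧ ly z = 2 * k}, rk,
      hPl _ _ (hF P (cov P) _ _ _ hfr (hL.conn r (2 * k - 1) (by omega) hr) hD), h1, h2, ?_⟩
    intro _ _
    refine ⟨fun y hy hly => h3 y ⟨hy, hly⟩, fun x y hx hlx hy hly => h4 x ?_ y ⟨hy, hly⟩⟩
    rcases hlx with h | h
    · exact Or.inl ⟨hx, h⟩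
    · exact Or.inr ⟨hx, h⟩
  · obtain ⟨g, hg, _⟩ := exists_inj_refine (fun _ : P => (0 : ℕ))
    refine ⟨⊥, fun v => v.elim 0 (fun x => g x + 1), hPl _ _ (fr_bot _), ?_, ?_, ?_⟩
    · intro v w hvw
      cases v with
      | none =>
        cases w with
        | none => rfl
        | some y => simp at hvw
      | some x =>
        cases w with
        | none => simp at hvw
        | some y =>
          have : g x + 1 = g y + 1 := hvw
          rw [hg (by omega : g x = g y)]
    · intro v hv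
      cases v with
      | none => exact absurd rfl hv
      | some x => exact Nat.succ_pos _
    · intro h1 h2
      exact absurd ⟨h1, h2⟩ hk

end Z1

theorem z1 {Pl : ∀ V : Type, SimpleGraph V → Prop} (hU : ZUStmt) (hF : ZFStmt) (hR : ZRStmt)
    (hI : INSP Pl)
    (hPl : ∀ (V : Type) [Finite V] (G : SimpleGraph V), Pool.WG.Fr G → Pl V G) : Z1Stmt := by
  have hone := fun (i : LaI) (j : i.P × ℕ) =>
    @Z1.one Pl hF hR hPl i.P i.fin i.ord i.fr i.comp i.ly i.lay j.1 j.2
  choose G rk h1 h2 h3 h4 using hone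
  refine hU hI (fun i : LaI => i.P) (fun i => i.P × ℕ) (fun i a => (i.comp a, (i.ly a + 1) / 2))
    (fun i j => ⟨Option i.P, (haveI := i.fin; inferInstance), G i j, rk i j, none, h1 i j, h2 i j,
      h3 i j⟩) (fun i j a => some a) _ _ (fun i => i.fin) (fun i j a b hab => Option.some.inj hab) ?_
  intro i a b hne hd
  obtain ⟨hc, hk, hm⟩ := hd
  let _ := i.ord
  have hlay := i.lay
  have hk1 : 1 ≤ (i.ly a + 1) / 2 := by omega
  obtain ⟨h5, h6⟩ := h4 i (i.comp a, (i.ly a + 1) / 2) hk1 (hlay.idem a)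
  refine ⟨by rw [hc, hk], ⟨by simp, by simp, ?_⟩, ?_⟩
  · exact h5 b hc.symm (show i.ly b = 2 * ((i.ly a + 1) / 2) - 1 by omega)
  · have h7 := h6 a b rfl (show i.ly a = 2 * ((i.ly a + 1) / 2) - 1 ∨
        i.ly a = 2 * ((i.ly a + 1) / 2) by omega) hc.symm
        (show i.ly b = 2 * ((i.ly a + 1) / 2) - 1 by omega)
    refine Iff.trans ?_ h7.symm
    constructor
    · intro h
      exact (show a < b from h).le
    · intro h
      exact lt_of_le_of_ne h hne

end Pool.BD
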