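import Pool.Agent.H57.BD.StmtsZ

set_option autoImplicit false

namespace Pool.BD

theorem z3 (h1 : Z1Stmt) (h2 : Z2Stmt) (hE : ZEStmt) (hX : ZXStmt) : Z3Stmt := by
  obtain ⟨R1, hR1, h1'⟩ := hX _ _ _ h1
  obtain ⟨R2, hR2, h2'⟩ := hX _ _ _ h2
  have hfin : ∀ i : LaI, Finite i.P := fun i => i.fin
  have b0 : Bd (ι := LaI) (fun i => i.P) (fun _ _ _ => True) (fun i a b => i.comp a = i.comp b) :=
    hE (fun i : LaI => i.P) (fun i => i.P) (fun i a => i.comp a) _ hfin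
  have b1 : Bd (ι := LaI) (fun i => i.P) (fun _ _ _ => True)
      (fun i a b => (i.ly a + 1) / 2 = (i.ly b + 1) / 2) :=
    hE (fun i : LaI => i.P) (fun _ => ℕ) (fun i a => (i.ly a + 1) / 2) _ hfin
  have b2 : Bd (ι := LaI) (fun i => i.P) (fun _ _ _ => True)
      (fun i a b => i.ly a / 2 = i.ly b / 2) :=
    hE (fun i : LaI => i.P) (fun _ => ℕ) (fun i a => i.ly a / 2) _ hfin
  have l1 : Bd (ι := LaI) (fun i => i.P) (fun _ _ _ => True) (fun i _ b => i.ly b % 2 = 1) :=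
    Bd.lab' hfin (fun i b => i.ly b % 2 = 1)
  have l2 : Bd (ι := LaI) (fun i => i.P) (fun _ _ _ => True)
      (fun i a _ => i.ly a % 2 = 0 ∧ 0 < i.ly a) :=
    Bd.lab hfin (fun i a => i.ly a % 2 = 0 ∧ 0 < i.ly a)
  have l3 : Bd (ι := LaI) (fun i => i.P) (fun _ _ _ => True) (fun i a _ => i.ly a = 0) :=
    Bd.lab hfin (fun i a => i.ly a = 0)
  have l4 : Bd (ι := LaI) (fun i => i.P) (fun _ _ _ => True) (fun i _ b => i.ly b = 1) :=
    Bd.lab' hfin (fun i b => i.ly b = 1)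
  refine ((b0.and (b1.and (l1.and hR1))).or ((b0.and (b2.and (l2.and hR2))).or
    (b0.and (l3.and l4)))).mono (fun i a b hne hd => ⟨hd, ?_⟩)
  letI := i.ord
  have hlay := i.lay
  show a < b ↔ _
  constructor
  · intro hlt
    have hc := hlay.comp_le a b hlt.le
    rcases hlay.ly_lt a b hlt with h | ⟨ha, hb, h | h⟩
    · rcases Nat.mod_two_eq_zero_or_one (i.ly b) with hm | hm
      · rcases Nat.eq_zero_or_pos (i.ly a) with h0 | h0
        · exfalso
          have e1 := (hlay.zero a).1 h0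
          have e2 := (hlay.zero b).1 (by omega)
          exact hne (by rw [← e1, ← e2, hc])
        · exact Or.inr (Or.inl ⟨hc, by omega, ⟨by omega, h0⟩,
            (h2' i a b hne ⟨hc, by omega, by omega, h0⟩).1 hlt⟩)
      · exact Or.inl ⟨hc, by omega, hm, (h1' i a b hne ⟨hc, by omega, hm⟩).1 hlt⟩
    · rcases Nat.eq_zero_or_pos (i.ly a) with h0 | h0
      · exact Or.inr (Or.inr ⟨hc, h0, by omega⟩)
      · exact Or.inr (Or.inl ⟨hc, by omega, ⟨by omega, h0⟩,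
            (h2' i a b hne ⟨hc, by omega, by omega, h0⟩).1 hlt⟩)
    · exact Or.inl ⟨hc, by omega, hb, (h1' i a b hne ⟨hc, by omega, hb⟩).1 hlt⟩
  · rintro (⟨hc, e, hm, hr⟩ | ⟨hc, e, hm, hr⟩ | ⟨hc, h0, h1⟩)
    · exact (h1' i a b hne ⟨hc, e, hm⟩).2 hr
    · exact (h2' i a b hne ⟨hc, e, hm.1, hm.2⟩).2 hr
    · have e1 := (hlay.zero a).1 h0
      have e2 := hlay.one b h1
      rw [← hc, e1] at e2
      exact e2

end Pool.BD
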