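import Pool.Agent.H57.BD.StmtsZ

set_option autoImplicit false

namespace Pool.BD

theorem z4 (h3 : Z3Stmt) (hL : ZLStmt) : Z4Stmt := by
  obtain ⟨K, φ, h⟩ := h3
  refine ⟨K, ?_⟩
  intro α _ _ h5 h33
  have hfr : Pool.WG.Fr (cov α) := by
    constructor
    · rintro ⟨f, hf1, hf2, hf3⟩
      apply h5
      refine ⟨f, fun w => ?_, hf1, hf2, fun v w hvw => hf3 v w ?_⟩
      · obtain ⟨x⟩ := (hf1 w).nonempty
        exact ⟨x.1, x.2⟩
      · rw [SimpleGraph.top_adj]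
        exact hvw
    · rintro ⟨f, hf1, hf2, hf3⟩
      apply h33
      refine ⟨f, fun w => ?_, hf1, hf2, fun i j => hf3 _ _ ?_⟩
      · obtain ⟨x⟩ := (hf1 w).nonempty
        exact ⟨x.1, x.2⟩
      · simp [completeBipartiteGraph_adj]
  obtain ⟨comp, ly, lay⟩ := hL α
  obtain ⟨L, hLi, hLr⟩ := h ⟨α, inferInstance, inferInstance, hfr, comp, ly, lay⟩
  exact ⟨L, φ, hLi, fun x y hne => hLr x y hne trivial⟩

end Pool.BD
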