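import Pool.Agent.H57.BD.StmtsZ

set_option autoImplicit false

namespace Pool.BD

namespace ZE

theorem exists_nb {Y J : Type} [Finite Y] (blk : Y → J) :
    ∃ (g : Y → ℤ) (nb : Y → ℤ), Function.Injective g ∧ ∀ x y, nb x = nb y ↔ blk x = blk y := by
  obtain ⟨g, hg, _⟩ := exists_inj_refine (fun _ : Y => (0 : ℕ))
  refine ⟨fun x => (g x : ℤ), fun x => ((sInf {n | ∃ z, blk z = blk x ∧ g z = n} : ℕ) : ℤ),
    fun a b hab => hg (Int.natCast_inj.1 (show ((g a : ℕ) : ℤ) = ((g b : ℕ) : ℤ) from hab)),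
    fun x y => ⟨fun h => ?_, fun h => ?_⟩⟩
  · have hx : sInf {n | ∃ z, blk z = blk x ∧ g z = n} ∈ {n | ∃ z, blk z = blk x ∧ g z = n} :=
      Nat.sInf_mem ⟨g x, x, rfl, rfl⟩
    have hy : sInf {n | ∃ z, blk z = blk y ∧ g z = n} ∈ {n | ∃ z, blk z = blk y ∧ g z = n} :=
      Nat.sInf_mem ⟨g y, y, rfl, rfl⟩
    have h' : sInf {n | ∃ z, blk z = blk x ∧ g z = n} =
      sInf {n | ∃ z, blk z = blk y ∧ g z = n} := Int.natCast_inj.1 h
    obtain ⟨z, hz1, hz2⟩ := hx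
    obtain ⟨z', hz1', hz2'⟩ := hy
    have : z = z' := hg (by rw [hz2, hz2', h'])
    rw [← hz1, this, hz1']
  · show ((sInf {n | ∃ z, blk z = blk x ∧ g z = n} : ℕ) : ℤ) =
      ((sInf {n | ∃ z, blk z = blk y ∧ g z = n} : ℕ) : ℤ)
    rw [h]

end ZE

theorem ze : ZEStmt := by
  intro κ Y J blk Dom hfin
  choose g nb hg hnb using fun i => (haveI := hfin i; ZE.exists_nb (blk i))
  let k1 : ∀ i, Y i → ℤ ×ₗ ℤ := fun i x => toLex (nb i x, g i x)
  let k2 : ∀ i, Y i → ℤ ×ₗ ℤ := fun i x => toLex (nb i x, - g i x)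
  have e1 : Bd Y Dom (fun i x y => k1 i x < k1 i y) := Bd.key hfin k1 (fun i x y hne _ h => hne (by
    have := Prod.mk.inj (toLex.injective h)
    exact hg i this.2))
  have e2 : Bd Y Dom (fun i x y => k2 i x < k2 i y) := Bd.key hfin k2 (fun i x y hne _ h => hne (by
    have := Prod.mk.inj (toLex.injective h)
    exact hg i (neg_injective this.2)))
  refine ((e1.and e2.not).or (e1.not.and e2)).mono (fun i x y hne hd => ⟨hd, ?_⟩)
  have hne' : g i x ≠ g i y := fun h => hne (hg i h)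
  rw [← hnb i x y]
  simp only [k1, k2, Prod.Lex.toLex_lt_toLex]
  omega

end Pool.BD
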