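import Pool.Agent.H57.BD.StmtsZ

set_option autoImplicit false

namespace Pool.BD

open Relation

theorem zl (hR : ZLRStmt) (hD : ZLDStmt) : ZLStmt := by
  intro P _ _
  obtain ⟨comp, hle, hidem, hmin, hzz⟩ := hR P
  have h := fun r : P => hD P (comp r) (fun b => hmin r b)
  choose lev h1 h2 h3 h4 h5 h6 using h
  have hmem : ∀ a : P, ReflTransGen (fun x y : P => x ≤ y ∨ y ≤ x) (comp (comp a)) a := by
    intro a
    rw [hidem]
    exact hzz a
  have hcz : ∀ r z : P, ReflTransGen (fun x y : P => x ≤ y ∨ y ≤ x) r z → comp z = comp r := by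
    intro r z hz
    induction hz with
    | refl => rfl
    | tail _ hs ih =>
      rcases hs with hs | hs
      · rw [← ih, hle _ _ hs]
      · rw [← ih, hle _ _ hs]
  refine ⟨comp, fun a => lev (comp a) a, ⟨hle, ?_, ?_, ?_, ?_, ?_, ?_, hidem⟩⟩
  · intro a b hab
    have hc := hle a b hab.le
    have := h1 (comp a) a (hmem a) b hab
    rw [hc] at this
    rw [hc]
    exact this
  · intro a
    have := h2 (comp a) a (hmem a)
    rw [hidem] at this
    exact this.trans ⟨fun h => h.symm, fun h => h.symm⟩
  · intro a ha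
    have := h3 (comp a) a (hmem a) ha
    rw [hidem] at this
    exact this
  · intro r i hi hr
    have := h4 r i hi
    have hset : {z : P | comp z = r ∧ lev (comp z) z < i} =
        {z : P | z ∈ {x | ReflTransGen (fun x y : P => x ≤ y ∨ y ≤ x) (comp r) x} ∧
          lev r z < i} := by
      ext z
      simp only [Set.mem_setOf_eq]
      constructor
      · rintro ⟨hz, hl⟩
        rw [hz] at hl
        refine ⟨?_, hl⟩
        have := hzz z
        rw [hz] at this
        rw [hr]
        exact this
      · rintro ⟨hz, hl⟩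
        have hc : comp z = r := by
          rw [hcz _ _ hz, hidem, hr]
        refine ⟨hc, ?_⟩
        rw [hc]
        exact hl
    rw [hset]
    exact this
  · intro a ha
    obtain ⟨d, hd1, hd2, hd3⟩ := h5 (comp a) a (hmem a) ha
    refine ⟨d, ?_, hd2, ?_⟩
    · show lev (comp d) d < lev (comp a) a
      rw [hle d a hd2]
      exact hd1
    · intro c hc1 hc2
      show lev (comp c) c ≤ lev (comp a) a
      rw [hle c a hc2]
      exact hd3 c hc1 hc2
  · intro a ha h0
    obtain ⟨d, hd1, hd2, hd3⟩ := h6 (comp a) a (hmem a) ha h0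
    refine ⟨d, ?_, hd2, ?_⟩
    · show lev (comp d) d < lev (comp a) a
      rw [← hle a d hd2]
      exact hd1
    · intro c hc1 hc2
      show lev (comp c) c ≤ lev (comp a) a
      rw [← hle a c hc1]
      exact hd3 c hc1 hc2

end Pool.BD
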