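import Pool.Agent.H57.BD.StmtsZ

set_option autoImplicit false

namespace Pool.BD

namespace ZU

theorem exists_nb {Y J : Type} [Finite Y] (blk : Y → J) :
    ∃ nb : Y → ℕ, ∀ x y, nb x = nb y ↔ blk x = blk y := by
  obtain ⟨g, hg, _⟩ := exists_inj_refine (fun _ : Y => (0 : ℕ))
  refine ⟨fun x => sInf {n | ∃ z, blk z = blk x ∧ g z = n}, fun x y => ⟨fun h => ?_, fun h => ?_⟩⟩
  · have hx : sInf {n | ∃ z, blk z = blk x ∧ g z = n} ∈ {n | ∃ z, blk z = blk x ∧ g z = n} :=
      Nat.sInf_mem ⟨g x, x, rfl, rfl⟩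
    have hy : sInf {n | ∃ z, blk z = blk y ∧ g z = n} ∈ {n | ∃ z, blk z = blk y ∧ g z = n} :=
      Nat.sInf_mem ⟨g y, y, rfl, rfl⟩
    have h' : sInf {n | ∃ z, blk z = blk x ∧ g z = n} =
      sInf {n | ∃ z, blk z = blk y ∧ g z = n} := h
    obtain ⟨z, hz1, hz2⟩ := hx
    obtain ⟨z', hz1', hz2'⟩ := hy
    have : z = z' := hg (by rw [hz2, hz2', h'])
    rw [← hz1, this, hz1']
  · show sInf {n | ∃ z, blk z = blk x ∧ g z = n} = sInf {n | ∃ z, blk z = blk y ∧ g z = n}
    rw [h]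

end ZU

theorem zu : ZUStmt := by
  intro ι κ X Dom Rel h Y J blk f emb Dom' Rel' hfin hemb hrel
  obtain ⟨K, φ, h⟩ := h
  refine ⟨K, φ, fun i => ?_⟩
  have := hfin i
  choose L hL h using fun j : J i => h (f i j)
  obtain ⟨nb, hnb⟩ := ZU.exists_nb (blk i)
  have hF : ∀ k : Fin K, ∃ F : Y i → ℕ, Function.Injective F ∧ ∀ x y,
      (toLex (nb x, L (blk i x) k (emb i (blk i x) x)) : ℕ ×ₗ ℕ) <
        toLex (nb y, L (blk i y) k (emb i (blk i y) y)) → F x < F y :=
    fun k => exists_inj_refine _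
  choose F hF1 hF2 using hF
  refine ⟨F, hF1, fun x y hne hd => ?_⟩
  obtain ⟨hb, hD, hR⟩ := hrel i x y hne hd
  have hcast : ∀ k, L (blk i y) k (emb i (blk i y) y) = L (blk i x) k (emb i (blk i x) y) := by
    intro k
    rw [hb]
  have hcast' : ∀ k (z : Y i), blk i z = blk i x →
      L (blk i z) k (emb i (blk i z) z) = L (blk i x) k (emb i (blk i x) z) := by
    intro k z hz
    rw [hz]
  have hnbxy : nb x = nb y := (hnb x y).2 hb
  rw [hR, h (blk i x) _ _ (fun he => hne (hemb i (blk i x) he)) hD]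
  have : Bits (L (blk i x)) (emb i (blk i x) x) (emb i (blk i x) y) = Bits F x y := by
    funext k
    simp only [Bits]
    congr 1
    apply propext
    constructor
    · intro hlt
      apply hF2 k x y
      rw [Prod.Lex.toLex_lt_toLex]
      exact Or.inr ⟨hnbxy, by rw [hcast k]; exact hlt⟩
    · intro hlt
      by_contra hge
      rcases lt_or_eq_of_le (not_lt.1 hge) with h3 | h3
      · have := hF2 k y x (by
          rw [Prod.Lex.toLex_lt_toLex]
          exact Or.inr ⟨hnbxy.symm, by rw [hcast k]; exact h3⟩)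
        omega
      · exact hne (hemb i (blk i x) (hL (blk i x) k h3)).symm
  rw [this]

end Pool.BD
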